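import Mathlib

set_option autoImplicit false

/-!
# Pinwheel scheduling with durations: the threshold is at most `1000 / 1413`

An infeasible instance with three jobs whose density and localized measure are at most
`1000 / 1413 < 0.7078`, so that `α* < 1`.
-/

namespace Pool.Agent.Results.MP_020ed8_lc.BelowOne

open Finset

/-- A DAPS instance: positive durations and positive, nondecreasing frequencies. -/
def IsInstance {n : ℕ} (f p : Fin n → ℕ) : Prop :=
  (∀ i, 1 ≤ f i) ∧ (∀ i, 1 ≤ p i) ∧ Monotone f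

/-- The schedule `S` is feasible: every job is processed infinitely often, and between two
consecutive processings `a < b` of job `i` the total duration of the jobs `S (a + 1), ..., S b` is
at most `f i`. -/
def IsFeasible {n : ℕ} (f p : Fin n → ℕ) (S : ℕ → Fin n) : Prop :=
  (∀ i : Fin n, ∀ N : ℕ, ∃ t, N ≤ t ∧ S t = i) ∧
  ∀ i : Fin n, ∀ a b : ℕ, a < b → S a = i → S b = i → (∀ t, a < t → t < b → S t ≠ i) →
    ∑ t ∈ Ioc a b, p (S t) ≤ f i

/-- `L(V) ≤ α`: the density `∑ p_i / f_i` and, for `i = 1, ..., n - 1`, the quotients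
`(∑_{j ≤ i} ⌊f_i / f_j⌋ p_j + max_{j > i} p_j) / f_i` are at most `α`. -/
def LLe {n : ℕ} (f p : Fin n → ℕ) (α : ℝ) : Prop :=
  ∑ i, (p i : ℝ) / f i ≤ α ∧
  ∀ i : Fin n, (i : ℕ) + 1 < n →
    (((∑ j ∈ univ.filter (fun j => j ≤ i), (f i / f j) * p j) +
      (univ.filter (fun j => i < j)).sup p : ℕ) : ℝ) / f i ≤ α

/-- frequencies -/
def fr : Fin 3 → ℕ := ![999, 1413, 10000]

/-- durations -/
def du : Fin 3 → ℕ := ![414, 293, 293]

theorem exists_consec (S : ℕ → Fin 3) (i : Fin 3) (t : ℕ) (ht : S t ≠ i)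
    (h1 : ∃ a, a < t ∧ S a = i) (h2 : ∃ b, t ≤ b ∧ S b = i) :
    ∃ a b, a < t ∧ t < b ∧ S a = i ∧ S b = i ∧ ∀ s, a < s → s < b → S s ≠ i := by
  classical
  obtain ⟨a0, ha0, ha0'⟩ := h1
  have hP : ∃ a, a ≤ t ∧ S a = i := ⟨a0, ha0.le, ha0'⟩
  obtain ⟨a, ha, hamax⟩ : ∃ a, (a ≤ t ∧ S a = i) ∧ ∀ s, a < s → s ≤ t → S s ≠ i := by
    refine ⟨Nat.findGreatest (fun a => S a = i) t, ⟨Nat.findGreatest_le t, ?_⟩, ?_⟩
    · exact Nat.findGreatest_spec (P := fun a => S a = i) ha0.le ha0'
    · intro s hs hst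
      exact Nat.findGreatest_is_greatest hs hst
  have hb := Nat.find_spec h2
  refine ⟨a, Nat.find h2, ?_, ?_, ha.2, hb.2, ?_⟩
  · rcases ha.1.lt_or_eq with h | h
    · exact h
    · exact absurd (h ▸ ha.2) ht
  · rcases hb.1.lt_or_eq with h | h
    · exact h
    · exact absurd (h ▸ hb.2) ht
  · intro s h3 h4
    rcases le_or_gt s t with h | h
    · exact hamax s h3 h
    · intro h5
      exact Nat.find_min h2 h4 ⟨h.le, h5⟩

theorem du_ge (i : Fin 3) : 293 ≤ du i := by
  fin_cases i <;> simp [du]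

theorem infeasible (S : ℕ → Fin 3) : ¬ IsFeasible fr du S := by
  rintro ⟨hinf, hgap⟩
  obtain ⟨u0, -, hu0⟩ := hinf 0 0
  obtain ⟨u1, -, hu1⟩ := hinf 1 0
  obtain ⟨t, ht, hSt⟩ := hinf 2 (u0 + u1 + 1)
  obtain ⟨a, b, hat, htb, hSa, hSb, hab⟩ := exists_consec S 0 t (by rw [hSt]; decide)
    ⟨u0, by omega, hu0⟩ (hinf 0 t)
  have hsum := hgap 0 a b (by omega) hSa hSb hab
  have hf0 : fr 0 = 999 := rfl
  have hf1 : fr 1 = 1413 := rfl
  have hd0 : du 0 = 414 := rfl
  have hd1 : du 1 = 293 := rfl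
  have hd2 : du 2 = 293 := rfl
  -- the neighbours of `t` are `0`
  have key : ∀ s, a < s → s < b → s = t := by
    intro s h1 h2
    by_contra hne
    have hsub : ({s, t, b} : Finset ℕ) ⊆ Ioc a b := by
      intro x hx
      simp only [mem_insert, mem_singleton] at hx
      rw [mem_Ioc]
      omega
    have h3 : ∑ x ∈ ({s, t, b} : Finset ℕ), du (S x) ≤ ∑ x ∈ Ioc a b, du (S x) :=
      sum_le_sum_of_subset hsub
    rw [sum_insert (by simp only [mem_insert, mem_singleton]; omega),
      sum_insert (by simp only [mem_singleton]; omega), sum_singleton, hSt, hSb] at h3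
    have h4 := du_ge (S s)
    omega
  have ha1 : a = t - 1 := by
    by_contra hne
    have := key (t - 1) (by omega) (by omega)
    omega
  have hb1 : b = t + 1 := by
    by_contra hne
    have := key (t + 1) (by omega) (by omega)
    omega
  obtain ⟨c, d, hct, htd, hSc, hSd, hcd⟩ := exists_consec S 1 t (by rw [hSt]; decide)
    ⟨u1, by omega, hu1⟩ (hinf 1 t)
  have hsum2 := hgap 1 c d (by omega) hSc hSd hcd
  have hca : c ≠ a := by
    intro h
    rw [h, hSa] at hSc
    exact absurd hSc (by decide)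
  have hdb : d ≠ b := by
    intro h
    rw [h, hSb] at hSd
    exact absurd hSd (by decide)
  have hsub : ({a, t, b, d} : Finset ℕ) ⊆ Ioc c d := by
    intro x hx
    simp only [mem_insert, mem_singleton] at hx
    rw [mem_Ioc]
    omega
  have h3 : ∑ x ∈ ({a, t, b, d} : Finset ℕ), du (S x) ≤ ∑ x ∈ Ioc c d, du (S x) :=
    sum_le_sum_of_subset hsub
  rw [sum_insert (by simp only [mem_insert, mem_singleton]; omega),
    sum_insert (by simp only [mem_insert, mem_singleton]; omega),
    sum_insert (by simp only [mem_singleton]; omega), sum_singleton, hSa, hSt, hSb, hSd] at h3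
  omega

theorem lle : LLe fr du (1000 / 1413) := by
  constructor
  · have a0 : fr 0 = 999 := rfl
    have a1 : fr 1 = 1413 := rfl
    have a2 : fr 2 = 10000 := rfl
    have d0 : du 0 = 414 := rfl
    have d1 : du 1 = 293 := rfl
    have d2 : du 2 = 293 := rfl
    rw [Fin.sum_univ_three, a0, a1, a2, d0, d1, d2]
    norm_num
  · intro i hi
    have h0 : (univ.filter (fun j : Fin 3 => j ≤ 0)) = {0} := by decide
    have h1 : (univ.filter (fun j : Fin 3 => j ≤ 1)) = {0, 1} := by decide
    have h2 : (univ.filter (fun j : Fin 3 => 0 < j)) = {1, 2} := by decide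
    have h3 : (univ.filter (fun j : Fin 3 => 1 < j)) = {2} := by decide
    fin_cases i
    · simp only [Fin.zero_eta, h0, h2, sum_singleton, fr, du]
      simp <;> norm_num
    · simp only [Fin.mk_one, h1, h3, fr, du]
      rw [sum_pair (by decide)]
      simp <;> norm_num
    · simp at hi

/-- There is an infeasible DAPS instance with `L(V) ≤ 1000 / 1413`; hence every `α` such that all
instances with `L(V) ≤ α` are feasible is smaller than `1000 / 1413 < 0.7078`. -/
theorem result :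
    (∃ f p : Fin 3 → ℕ, IsInstance f p ∧ LLe f p (1000 / 1413) ∧ ¬ ∃ S, IsFeasible f p S) ∧
    ∀ α : ℝ, (∀ (n : ℕ) (f p : Fin n → ℕ), 1 ≤ n → IsInstance f p → LLe f p α →
      ∃ S, IsFeasible f p S) → α < 1000 / 1413 := by
  have h : IsInstance fr du ∧ LLe fr du (1000 / 1413) ∧ ¬ ∃ S, IsFeasible fr du S := by
    refine ⟨⟨?_, ?_, ?_⟩, lle, fun ⟨S, hS⟩ => infeasible S hS⟩
    · intro i
      fin_cases i <;> simp [fr]
    · intro i
      exact le_trans (by norm_num) (du_ge i)
    · intro i j hij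
      fin_cases i <;> fin_cases j <;> simp [fr] at hij ⊢
  refine ⟨⟨fr, du, h⟩, fun α hα => ?_⟩
  by_contra hge
  push Not at hge
  refine h.2.2 (hα 3 fr du (by norm_num) h.1 ⟨h.2.1.1.trans hge, fun i hi => ?_⟩)
  exact (h.2.1.2 i hi).trans hge

end Pool.Agent.Results.MP_020ed8_lc.BelowOne
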